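import Mathlib
import Pool.Agent.R889.Poly3

/-!
# MP_1fc009_ag, Q1 and Q2: there are no uniform rational polytopes for minimal log discrepancies

For `d ≥ 3`, the answer is negative for every vector `v` with an irrational coordinate in `(0, 1)`
and every `ε ≤ d - 2`. (If all coordinates of `v` are rational, then `P = {v}` has the required
properties.)

The example: let `0 < n < m` be integers, `r = (m + 1) (n + 1) - 1`, let `S` be the cyclic quotient
surface singularity `1/r (1, n + 1)`, and let `D` be the prime divisor `x = 0` on `S`. Then
`t ↦ mld (S, t D)` has a break point at `t = 1 - n / m`: for this `t` it is computed by the two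
toric divisors with weights `(1, n + 1) / r` and `(m + 1, 1) / r`, and by no others, up to the
lattice points on the segment between them. Such `t` are dense in `(0, 1)`. The germ is
`X = S × 𝔸^(d-2)` with `B = t (D × 𝔸^(d-2))`; its minimal log discrepancy at the closed point is
`d - 2 + mld (S, t D) > d - 2`.

The definitions are in `Pool.Agent.R889.PolyDefs` (the property `HasUniformPolytope`),
`Pool.Agent.W497.Mld.Defs`, `Pool.Agent.H436R3.KT.Defs` and `Pool.Agent.H436R3.Fol.Defs`.
-/

set_option autoImplicit false

namespace Pool.Agent.Results.MP_1fc009_ag.NoUniformPolytope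

open Pool.Agent.R889

/-- Let `d ≥ 3`, let `v ∈ ℝ^m` be a vector with an irrational coordinate `v_i` with `0 < v_i < 1`,
and `ε ≤ d - 2`. Then there are no rational polytope `P`, positive reals `a_j` and positive reals
`ε_j` as in Q1. -/
theorem result (d m : ℕ) (hd : 3 ≤ d) (v : Fin m → ℝ)
    (hv : ∃ i, Irrational (v i) ∧ 0 < v i ∧ v i < 1) (ε : ℝ) (hε : ε ≤ d - 2) :
    ¬ HasUniformPolytope d m ε v := by
  obtain ⟨i, hi, h0, h1⟩ := hv
  exact no_polytope hd hi h0 h1 hε

end Pool.Agent.Results.MP_1fc009_ag.NoUniformPolytope
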